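import Pool.Agent.W254.HP.Prod
import Pool.Agent.H340R2.LW

/-!
# `1`, `e ^ α` and the logarithms of algebraic numbers

Call a nonzero algebraic number `α` and a nonzero logarithm `l` of an algebraic number *related* if
`1`, `e ^ α`, `l` are linearly dependent over the algebraic numbers (the question asks whether `1`
and `π i`, up to a factor, are related). Related pairs form a matching between nonzero algebraic
numbers and lines of logarithms, the matched lines are linearly independent, and the matched
numbers are sparse: in each progression `α, 2 α, …, N α` at most `2 √N` of them are matched. More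
generally the space of the exponential sums with exponents in a finite set which are linear forms in
logarithms is small.
-/

set_option autoImplicit false

namespace Pool.Agent.Results.MP_58e087_nt.ExponentialsAgainstLogarithms

open Finset Module
open Pool.Agent.H301R2.SSE (QB mem_QB Lt Lt_rep Lt_mul Lt_alg Lt_log)
open scoped Pointwise

/-- `l` is a nonzero logarithm of an algebraic number -/
def IsLog (l : ℂ) : Prop := l ≠ 0 ∧ IsAlgebraic ℚ (Complex.exp l)

/-- `1`, `u`, `v` are linearly dependent over the field of algebraic numbers -/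
def Dep (u v : ℂ) : Prop := ∃ a b c : ℂ, IsAlgebraic ℚ a ∧ IsAlgebraic ℚ b ∧ IsAlgebraic ℚ c ∧
  (a ≠ 0 ∨ b ≠ 0 ∨ c ≠ 0) ∧ a + b * u + c * v = 0

/-- `z = b₀ + b₁ l₁ + … + b_r l_r` with algebraic `b_i` and logarithms `l_i` of algebraic numbers -/
def IsForm (z : ℂ) : Prop := ∃ (r : ℕ) (l b : Fin r → ℂ) (b₀ : ℂ), IsAlgebraic ℚ b₀ ∧
  (∀ i, IsAlgebraic ℚ (b i) ∧ IsAlgebraic ℚ (Complex.exp (l i))) ∧ z = b₀ + ∑ i, b i * l i

theorem isForm_mem {z : ℂ} (h : IsForm z) : z ∈ Lt := by
  obtain ⟨r, l, b, b₀, h0, h1, rfl⟩ := h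
  exact Lt.add_mem (Lt_alg h0) (Lt.sum_mem fun i _ => Lt_mul (h1 i).1 (Lt_log (h1 i).2))

/-- two exponentials and the Lindemann-Weierstrass theorem -/
theorem lw3 (α β a b c : ℂ) (hα : IsAlgebraic ℚ α) (hβ : IsAlgebraic ℚ β) (hα0 : α ≠ 0)
    (hβ0 : β ≠ 0) (hne : α ≠ β) (ha : IsAlgebraic ℚ a) (hb : IsAlgebraic ℚ b)
    (hc : IsAlgebraic ℚ c) (h : a + b * Complex.exp α + c * Complex.exp β = 0) :
    a = 0 ∧ b = 0 ∧ c = 0 := by
  have := Pool.Agent.H340R2.LW.lindemann_weierstrass (Finset.univ : Finset (Fin 3)) ![0, α, β]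
    ![a, b, c] (by
      intro i _
      fin_cases i
      · exact isAlgebraic_zero
      · exact hα
      · exact hβ) (by
      intro i _
      fin_cases i
      · exact ha
      · exact hb
      · exact hc) (by
      intro i _ j _ hij
      fin_cases i <;> fin_cases j <;> simp_all [eq_comm]) (by
      rw [Fin.sum_univ_three]
      simp only [Matrix.cons_val_zero, Matrix.cons_val_one, Matrix.cons_val, Complex.exp_zero,
        mul_one]
      exact h)
  exact ⟨this 0 (Finset.mem_univ _), this 1 (Finset.mem_univ _), this 2 (Finset.mem_univ _)⟩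

theorem exp_transc {α : ℂ} (hα : IsAlgebraic ℚ α) (h0 : α ≠ 0) :
    Transcendental ℚ (Complex.exp α) := Pool.Agent.H340R2.LW.transcendental_cexp α hα h0

/-- a nonzero logarithm of an algebraic number is transcendental -/
theorem log_transc {l : ℂ} (hl : IsLog l) : Transcendental ℚ l := fun h =>
  exp_transc h hl.1 hl.2

/-- a dependence relation of `1`, `u`, `v` with `u`, `v` transcendental can be solved for `v` -/
theorem Dep.solve {u v : ℂ} (h : Dep u v) (hu : Transcendental ℚ u) (hv : Transcendental ℚ v) :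
    ∃ a b : ℂ, IsAlgebraic ℚ a ∧ IsAlgebraic ℚ b ∧ b ≠ 0 ∧ v = a + b * u := by
  obtain ⟨a, b, c, ha, hb, hc, hne, he⟩ := h
  have hc0 : c ≠ 0 := by
    rintro rfl
    rw [zero_mul, add_zero] at he
    have hb0 : b ≠ 0 := by
      rintro rfl
      rw [zero_mul, add_zero] at he
      simp [he] at hne
    apply hu
    have : u = -a * b⁻¹ := by
      field_simp
      linear_combination he
    rw [this]
    exact ha.neg.mul hb.inv
  have hb0 : b ≠ 0 := by
    rintro rfl
    apply hv
    have : v = -a * c⁻¹ := by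
      field_simp
      linear_combination he
    rw [this]
    exact ha.neg.mul hc.inv
  refine ⟨-a * c⁻¹, -b * c⁻¹, ha.neg.mul hc.inv, hb.neg.mul hc.inv, ?_, ?_⟩
  · exact mul_ne_zero (neg_ne_zero.mpr hb0) (inv_ne_zero hc0)
  · field_simp
    linear_combination he

/-- each transcendental number is related to at most one `e ^ α` -/
theorem one_exponent {t : ℂ} (ht : Transcendental ℚ t) {α β : ℂ} (hα : IsAlgebraic ℚ α)
    (hβ : IsAlgebraic ℚ β) (hα0 : α ≠ 0) (hβ0 : β ≠ 0) (h1 : Dep (Complex.exp α) t)
    (h2 : Dep (Complex.exp β) t) : α = β := by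
  by_contra hne
  obtain ⟨a, b, ha, hb, hb0, h3⟩ := h1.solve (exp_transc hα hα0) ht
  obtain ⟨a', b', ha', hb', hb0', h4⟩ := h2.solve (exp_transc hβ hβ0) ht
  have := lw3 α β (a - a') b (-b') hα hβ hα0 hβ0 hne (ha.sub ha') hb hb'.neg (by
    linear_combination h4 - h3)
  exact hb0 this.2.1

/-- Baker's theorem for finitely many logarithms, matched with different exponentials -/
theorem matched_indep {n : ℕ} (α l : Fin n → ℂ) (hα : ∀ i, IsAlgebraic ℚ (α i))
    (hα0 : ∀ i, α i ≠ 0) (hinj : Function.Injective α) (hl : ∀ i, IsLog (l i))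
    (h : ∀ i, Dep (Complex.exp (α i)) (l i)) (c₀ : ℂ) (c : Fin n → ℂ) (hc₀ : IsAlgebraic ℚ c₀)
    (hc : ∀ i, IsAlgebraic ℚ (c i)) (hs : c₀ + ∑ i, c i * l i = 0) : c₀ = 0 ∧ ∀ i, c i = 0 := by
  choose a b ha hb hb0 hab using fun i => (h i).solve (exp_transc (hα i) (hα0 i)) (log_transc (hl i))
  have hLW := Pool.Agent.H340R2.LW.lindemann_weierstrass (Finset.univ : Finset (Option (Fin n)))
    (fun o => o.elim 0 α) (fun o => o.elim (c₀ + ∑ i, c i * a i) (fun i => c i * b i)) (by
      rintro (_ | i) -
      · exact isAlgebraic_zero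
      · exact hα i) (by
      rintro (_ | i) -
      · refine hc₀.add ?_
        rw [← mem_QB]
        exact sum_mem fun i _ => mul_mem (mem_QB.mpr (hc i)) (mem_QB.mpr (ha i))
      · exact (hc i).mul (hb i)) (by
      rintro (_ | i) - (_ | j) - hij
      · rfl
      · exact absurd hij.symm (hα0 j)
      · exact absurd hij (hα0 i)
      · exact congrArg some (hinj hij)) (by
      rw [Fintype.sum_option]
      simp only [Option.elim_none, Option.elim_some, Complex.exp_zero, mul_one]
      rw [← hs, add_assoc, ← Finset.sum_add_distrib]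
      congr 1
      refine Finset.sum_congr rfl fun i _ => ?_
      rw [hab i]
      ring)
  have hz : ∀ i, c i = 0 := fun i => by
    have h1 : c i * b i = 0 := hLW (some i) (Finset.mem_univ _)
    exact (mul_eq_zero.mp h1).resolve_right (hb0 i)
  refine ⟨?_, hz⟩
  simpa [hz] using hs

/-- each `e ^ α` is related to at most one rational line of logarithms -/
theorem one_line {α : ℂ} (hα : IsAlgebraic ℚ α) (hα0 : α ≠ 0) {l m : ℂ} (hl : IsLog l)
    (hm : IsLog m) (h1 : Dep (Complex.exp α) l) (h2 : Dep (Complex.exp α) m) :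
    ∃ q : ℚ, m = q * l := by
  obtain ⟨a, b, ha, hb, hb0, h3⟩ := h1.solve (exp_transc hα hα0) (log_transc hl)
  obtain ⟨a', b', ha', hb', hb0', h4⟩ := h2.solve (exp_transc hα hα0) (log_transc hm)
  by_contra hcon
  push Not at hcon
  have hli : LinearIndependent ℚ ![l, m] := by
    rw [LinearIndependent.pair_iff]
    intro s t hst
    have ht : t = 0 := by
      by_contra ht0
      apply hcon (-s / t)
      have ht1 : (t : ℂ) ≠ 0 := by exact_mod_cast ht0
      rw [Rat.smul_def, Rat.smul_def] at hst
      push_cast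
      field_simp
      linear_combination hst
    refine ⟨?_, ht⟩
    rw [ht, zero_smul, add_zero] at hst
    exact (smul_eq_zero.mp hst).resolve_right hl.1
  have := Pool.Agent.H297R2.baker_inhom ![l, m] (by
      intro i
      fin_cases i
      · exact hl.2
      · exact hm.2) hli (a' * b - a * b') ((ha'.mul hb).sub (ha.mul hb')) ![b', -b] (by
      intro i
      fin_cases i
      · exact hb'
      · exact hb.neg) (by
      rw [Fin.sum_univ_two]
      simp only [Matrix.cons_val_zero, Matrix.cons_val_one]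
      rw [h3, h4]
      ring)
  exact hb0' (this.2 0)

/-! ### Exponential sums which are linear forms in logarithms -/

/-- exponentials of distinct algebraic numbers are linearly independent over `QB` -/
theorem exp_indep (A : Finset ℂ) (hA : ∀ a ∈ A, IsAlgebraic ℚ a) :
    LinearIndependent QB (fun a : A => Complex.exp (a : ℂ)) := by
  rw [Fintype.linearIndependent_iff]
  intro g hg i
  have := Pool.Agent.H340R2.LW.lindemann_weierstrass (Finset.univ : Finset A)
    (fun a => (a : ℂ)) (fun a => (g a : ℂ)) (fun a _ => hA a a.2)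
    (fun a _ => mem_QB.mp (g a).2) (fun a _ b _ hab => Subtype.ext hab) (by
      rw [← hg]
      refine Finset.sum_congr rfl fun a _ => ?_
      rw [Algebra.smul_def]
      rfl) i (Finset.mem_univ _)
  exact Subtype.ext this

/-- **Main inequality.** -/
theorem main_ineq (A H : Finset ℂ) (hA : ∀ a ∈ A, IsAlgebraic ℚ a)
    (hH : ∀ a ∈ H, IsAlgebraic ℚ a) (m : ℕ) (c : Fin m → ℂ → ℂ)
    (hc : ∀ j a, IsAlgebraic ℚ (c j a))
    (hi : ∀ g : Fin m → ℂ, (∀ j, IsAlgebraic ℚ (g j)) → (∀ a ∈ A, ∑ j, g j * c j a = 0) →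
      ∀ j, g j = 0)
    (hf : ∀ j, IsForm (∑ a ∈ A, c j a * Complex.exp a)) :
    H.card * m ≤ (A + H).card + H.card * (H.card - 1) := by
  classical
  let X : Submodule QB ℂ := Submodule.span QB (Set.range fun a : H => Complex.exp (a : ℂ))
  let f : Fin m → ℂ := fun j => ∑ a ∈ A, c j a * Complex.exp a
  let W : Submodule QB ℂ := Submodule.span QB (Set.range f)
  let Y : Submodule QB ℂ :=
    Submodule.span QB (Set.range fun a : ((A + H : Finset ℂ)) => Complex.exp (a : ℂ))
  have : FiniteDimensional QB X := FiniteDimensional.span_of_finite QB (Set.finite_range _)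
  have : FiniteDimensional QB W := FiniteDimensional.span_of_finite QB (Set.finite_range _)
  have : FiniteDimensional QB Y := FiniteDimensional.span_of_finite QB (Set.finite_range _)
  have hX : finrank QB X = H.card := by
    have := finrank_span_eq_card (exp_indep H hH)
    rwa [Fintype.card_coe] at this
  have hfi : LinearIndependent QB f := by
    rw [Fintype.linearIndependent_iff]
    intro g hg j
    have h1 : ∀ a ∈ A, ∑ j, (g j : ℂ) * c j a = 0 := by
      refine Pool.Agent.H340R2.LW.lindemann_weierstrass A (fun a => a)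
        (fun a => ∑ j, (g j : ℂ) * c j a) hA (fun a _ => ?_) (fun a _ b _ hab => hab) ?_
      · rw [← mem_QB]
        exact sum_mem fun j _ => mul_mem (g j).2 (mem_QB.mpr (hc j a))
      · rw [← hg]
        simp only [Finset.sum_mul]
        rw [Finset.sum_comm]
        refine Finset.sum_congr rfl fun j _ => ?_
        have h2 : g j • f j = (g j : ℂ) * f j := by rw [Algebra.smul_def]; rfl
        rw [h2]
        simp only [f, Finset.mul_sum]
        refine Finset.sum_congr rfl fun a _ => ?_
        ring
    exact Subtype.ext (hi (fun j => (g j : ℂ)) (fun j => mem_QB.mp (g j).2) h1 j)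
  have hW : finrank QB W = m := by
    have := finrank_span_eq_card hfi
    rwa [Fintype.card_fin] at this
  have hY : finrank QB Y ≤ (A + H).card := by
    have := finrank_range_le_card (R := QB) (fun a : ((A + H : Finset ℂ)) => Complex.exp (a : ℂ))
    rwa [Fintype.card_coe] at this
  have hWL : W ≤ Lt := by
    rw [Submodule.span_le]
    rintro _ ⟨j, rfl⟩
    exact isForm_mem (hf j)
  have hXW : ∀ x ∈ X, ∀ w ∈ W, x * w ∈ Y := by
    intro x hx w hw
    refine Submodule.span_induction (p := fun x _ => x * w ∈ Y) ?_ ?_ ?_ ?_ hx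
    · rintro _ ⟨a, rfl⟩
      refine Submodule.span_induction (p := fun w _ => Complex.exp (a : ℂ) * w ∈ Y) ?_ ?_ ?_ ?_ hw
      · rintro _ ⟨j, rfl⟩
        have : Complex.exp (a : ℂ) * f j
            = ∑ b ∈ A, (⟨c j b, mem_QB.mpr (hc j b)⟩ : QB) • Complex.exp (b + a) := by
          simp only [f, Finset.mul_sum]
          refine Finset.sum_congr rfl fun b _ => ?_
          rw [Algebra.smul_def, Complex.exp_add]
          change _ = c j b * _
          ring
        rw [this]
        refine Y.sum_mem fun b hb => Y.smul_mem _ (Submodule.subset_span ?_)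
        exact ⟨⟨b + a, Finset.add_mem_add hb a.2⟩, rfl⟩
      · rw [mul_zero]; exact Y.zero_mem
      · intro u v _ _ hu hv
        rw [mul_add]
        exact Y.add_mem hu hv
      · intro q u _ hu
        rw [mul_smul_comm]
        exact Y.smul_mem q hu
    · rw [zero_mul]; exact Y.zero_mem
    · intro u v _ _ hu hv
      rw [add_mul]
      exact Y.add_mem hu hv
    · intro q u _ hu
      rw [smul_mul_assoc]
      exact Y.smul_mem q hu
  have := Pool.Agent.W254.HP.product_le X W Y hWL hXW
  rw [hX, hW] at this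
  omega

/-- for finite sets of exponents -/
theorem set_ineq (B H : Finset ℂ) (hB : ∀ a ∈ B, IsAlgebraic ℚ a) (hH : ∀ a ∈ H, IsAlgebraic ℚ a)
    (hf : ∀ b ∈ B, IsForm (Complex.exp b)) :
    H.card * B.card ≤ (B + H).card + H.card * (H.card - 1) := by
  classical
  let e : Fin B.card ≃ B := B.equivFin.symm
  refine main_ineq B H hB hH B.card (fun j a => if a = (e j : ℂ) then 1 else 0) ?_ ?_ ?_
  · intro j a
    split_ifs
    · exact isAlgebraic_one
    · exact isAlgebraic_zero
  · intro g _ h j
    have h1 := h (e j) (e j).2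
    rw [Finset.sum_eq_single j] at h1
    · simpa using h1
    · intro i _ hij
      rw [if_neg, mul_zero]
      intro h2
      exact hij (e.injective (Subtype.ext h2.symm))
    · intro h2
      exact absurd (Finset.mem_univ _) h2
  · intro j
    have h1 : ∑ a ∈ B, (if a = (e j : ℂ) then (1 : ℂ) else 0) * Complex.exp a
        = Complex.exp (e j : ℂ) := by
      rw [Finset.sum_eq_single (e j : ℂ)]
      · simp
      · intro b _ hb
        rw [if_neg hb, zero_mul]
      · intro h2
        exact absurd (e j).2 h2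
    rw [h1]
    exact hf _ (e j).2

/-- polynomials in `e ^ α` -/
theorem poly_bound {α : ℂ} (hα : IsAlgebraic ℚ α) (hα0 : α ≠ 0) (N m : ℕ)
    (P : Fin m → Polynomial ℂ) (hP : LinearIndependent ℂ P)
    (hc : ∀ j k, IsAlgebraic ℚ ((P j).coeff k)) (hd : ∀ j, (P j).natDegree ≤ N)
    (hf : ∀ j, IsForm ((P j).eval (Complex.exp α))) : m ≤ 2 * Nat.sqrt N + 1 := by
  classical
  let mu : ℕ → ℂ := fun k => (k : ℂ) * α
  have hmu : Function.Injective mu := by
    intro k l hkl
    have := mul_right_cancel₀ hα0 hkl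
    exact_mod_cast this
  have hmualg : ∀ k, IsAlgebraic ℚ (mu k) := fun k => (isAlgebraic_natCast k).mul hα
  have hmuadd : ∀ k l, mu k + mu l = mu (k + l) := by
    intro k l
    simp only [mu]
    push_cast
    ring
  let A : Finset ℂ := (Finset.range (N + 1)).image mu
  let H : Finset ℂ := (Finset.range (Nat.sqrt N + 1)).image mu
  have hHc : H.card = Nat.sqrt N + 1 := by
    rw [Finset.card_image_of_injective _ hmu, Finset.card_range]
  have hAH : (A + H).card ≤ N + Nat.sqrt N + 1 := by
    have h1 : A + H ⊆ (Finset.range (N + Nat.sqrt N + 1)).image mu := by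
      intro x hx
      obtain ⟨a, ha, b, hb, rfl⟩ := Finset.mem_add.mp hx
      obtain ⟨k, hk, rfl⟩ := Finset.mem_image.mp ha
      obtain ⟨l, hl, rfl⟩ := Finset.mem_image.mp hb
      rw [Finset.mem_range] at hk hl
      exact Finset.mem_image.mpr ⟨k + l, Finset.mem_range.mpr (by omega), (hmuadd k l).symm⟩
    calc (A + H).card ≤ _ := Finset.card_le_card h1
      _ = _ := by rw [Finset.card_image_of_injective _ hmu, Finset.card_range]
  -- the inverse of `mu`
  let nu : ℂ → ℕ := Function.invFun mu
  have hnu : ∀ k, nu (mu k) = k := Function.leftInverse_invFun hmu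
  have key := main_ineq A H (by
      intro a ha
      obtain ⟨k, _, rfl⟩ := Finset.mem_image.mp ha
      exact hmualg k) (by
      intro a ha
      obtain ⟨k, _, rfl⟩ := Finset.mem_image.mp ha
      exact hmualg k) m (fun j a => (P j).coeff (nu a)) (fun j a => hc j _) (by
      intro g _ h
      have h1 : ∑ j, g j • P j = 0 := by
        ext k
        rw [Polynomial.finsetSum_coeff, Polynomial.coeff_zero]
        simp only [Polynomial.coeff_smul, smul_eq_mul]
        by_cases hk : k ≤ N
        · have h2 := h (mu k) (Finset.mem_image_of_mem _ (Finset.mem_range.mpr (by omega)))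
          simpa only [hnu] using h2
        · refine Finset.sum_eq_zero fun j _ => ?_
          rw [Polynomial.coeff_eq_zero_of_natDegree_lt (by have := hd j; omega), mul_zero]
      exact Fintype.linearIndependent_iff.mp hP g h1) (by
      intro j
      have h1 : ∑ a ∈ A, (P j).coeff (nu a) * Complex.exp a = (P j).eval (Complex.exp α) := by
        rw [Finset.sum_image (fun k _ l _ hkl => hmu hkl),
          Polynomial.eval_eq_sum_range' (n := N + 1) (by have := hd j; omega)]
        refine Finset.sum_congr rfl fun k _ => ?_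
        rw [hnu, ← Complex.exp_nat_mul]
      rw [h1]
      exact hf j)
  rw [hHc] at key
  have h5 : N < (Nat.sqrt N + 1) * (Nat.sqrt N + 1) := Nat.lt_succ_sqrt N
  set s := Nat.sqrt N
  have h6 : s + 1 - 1 = s := by omega
  rw [h6] at key
  by_contra hcon
  push Not at hcon
  nlinarith

/-- multiples of one algebraic number -/
theorem count_bound {α : ℂ} (hα : IsAlgebraic ℚ α) (hα0 : α ≠ 0) (N : ℕ) (S : Finset ℕ)
    (hS : ∀ k ∈ S, 1 ≤ k ∧ k ≤ N ∧ ∃ l, IsLog l ∧ Dep (Complex.exp (k * α)) l) :
    S.card ≤ 2 * Nat.sqrt N := by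
  classical
  let T : Finset ℕ := insert 0 S
  have h0 : (0 : ℕ) ∉ S := fun h => by have := (hS 0 h).1; omega
  have hT : T.card = S.card + 1 := Finset.card_insert_of_notMem h0
  let e : Fin T.card ≃ T := T.equivFin.symm
  have hle : ∀ k ∈ T, k ≤ N := by
    intro k hk
    rcases Finset.mem_insert.mp hk with rfl | hk
    · exact Nat.zero_le _
    · exact (hS k hk).2.1
  have := poly_bound hα hα0 N T.card (fun j => Polynomial.X ^ ((e j : T) : ℕ)) (by
      have h1 : LinearIndependent ℂ (fun k : ℕ => (Polynomial.X : Polynomial ℂ) ^ k) := by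
        have := (Polynomial.basisMonomials ℂ).linearIndependent
        have h2 : (fun k : ℕ => (Polynomial.X : Polynomial ℂ) ^ k)
            = (Polynomial.basisMonomials ℂ : ℕ → Polynomial ℂ) := by
          funext k
          rw [Polynomial.coe_basisMonomials, Polynomial.X_pow_eq_monomial]
        rw [h2]
        exact this
      exact h1.comp (fun j => ((e j : T) : ℕ)) (Subtype.val_injective.comp e.injective)) (by
      intro j k
      rw [Polynomial.coeff_X_pow]
      split_ifs
      · exact isAlgebraic_one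
      · exact isAlgebraic_zero) (by
      intro j
      rw [Polynomial.natDegree_X_pow]
      exact hle _ (e j).2) (by
      intro j
      rw [Polynomial.eval_pow, Polynomial.eval_X]
      rcases Finset.mem_insert.mp (e j).2 with h | h
      · rw [h, pow_zero]
        exact ⟨0, Fin.elim0, Fin.elim0, 1, isAlgebraic_one, fun i => i.elim0, by simp⟩
      · obtain ⟨h1, -, l, hl, hdep⟩ := hS _ h
        have hk0 : ((((e j : T) : ℕ) : ℂ)) ≠ 0 := by
          have : ((e j : T) : ℕ) ≠ 0 := by omega
          exact_mod_cast this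
        obtain ⟨a, b, ha, hb, hb0, hab⟩ := hdep.solve
          (exp_transc ((isAlgebraic_natCast _).mul hα) (mul_ne_zero hk0 hα0)) (log_transc hl)
        refine ⟨1, fun _ => l, fun _ => b⁻¹, -a * b⁻¹, ha.neg.mul hb.inv,
          fun _ => ⟨hb.inv, hl.2⟩, ?_⟩
        rw [Fin.sum_univ_one, ← Complex.exp_nat_mul]
        field_simp
        linear_combination -hab)
  omega

/-- **Exponentials against logarithms.** -/
theorem result :
    -- every transcendental number is dependent, with `1`, on at most one `e ^ α`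
    (∀ t α β : ℂ, Transcendental ℚ t → IsAlgebraic ℚ α → IsAlgebraic ℚ β → α ≠ 0 → β ≠ 0 →
      Dep (Complex.exp α) t → Dep (Complex.exp β) t → α = β) ∧
    -- every `e ^ α` is dependent, with `1`, on at most one rational line of logarithms
    (∀ α l m : ℂ, IsAlgebraic ℚ α → α ≠ 0 → IsLog l → IsLog m → Dep (Complex.exp α) l →
      Dep (Complex.exp α) m → ∃ q : ℚ, m = q * l) ∧
    -- the logarithms related to different exponents are linearly independent, also with `1`
    (∀ (n : ℕ) (α l : Fin n → ℂ), (∀ i, IsAlgebraic ℚ (α i)) → (∀ i, α i ≠ 0) →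
      Function.Injective α → (∀ i, IsLog (l i)) → (∀ i, Dep (Complex.exp (α i)) (l i)) →
      ∀ (c₀ : ℂ) (c : Fin n → ℂ), IsAlgebraic ℚ c₀ → (∀ i, IsAlgebraic ℚ (c i)) →
        c₀ + ∑ i, c i * l i = 0 → c₀ = 0 ∧ ∀ i, c i = 0) ∧
    -- exponential sums which are linear forms in logarithms: the general inequality
    (∀ A H : Finset ℂ, (∀ a ∈ A, IsAlgebraic ℚ a) → (∀ a ∈ H, IsAlgebraic ℚ a) →
      ∀ (m : ℕ) (c : Fin m → ℂ → ℂ), (∀ j a, IsAlgebraic ℚ (c j a)) →
        (∀ g : Fin m → ℂ, (∀ j, IsAlgebraic ℚ (g j)) → (∀ a ∈ A, ∑ j, g j * c j a = 0) →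
          ∀ j, g j = 0) →
        (∀ j, IsForm (∑ a ∈ A, c j a * Complex.exp a)) →
        H.card * m ≤ (A + H).card + H.card * (H.card - 1)) ∧
    -- the same for single exponentials
    (∀ B H : Finset ℂ, (∀ a ∈ B, IsAlgebraic ℚ a) → (∀ a ∈ H, IsAlgebraic ℚ a) →
      (∀ b ∈ B, IsForm (Complex.exp b)) →
      H.card * B.card ≤ (B + H).card + H.card * (H.card - 1)) ∧
    -- polynomials in `e ^ α`
    (∀ α : ℂ, IsAlgebraic ℚ α → α ≠ 0 → ∀ (N m : ℕ) (P : Fin m → Polynomial ℂ),
      LinearIndependent ℂ P → (∀ j k, IsAlgebraic ℚ ((P j).coeff k)) →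
      (∀ j, (P j).natDegree ≤ N) → (∀ j, IsForm ((P j).eval (Complex.exp α))) →
      m ≤ 2 * Nat.sqrt N + 1) ∧
    -- the numbers `e ^ (k α)`
    (∀ α : ℂ, IsAlgebraic ℚ α → α ≠ 0 → ∀ (N : ℕ) (S : Finset ℕ),
      (∀ k ∈ S, 1 ≤ k ∧ k ≤ N ∧ ∃ l, IsLog l ∧ Dep (Complex.exp (k * α)) l) →
      S.card ≤ 2 * Nat.sqrt N) :=
  ⟨fun _ _ _ ht hα hβ hα0 hβ0 h1 h2 => one_exponent ht hα hβ hα0 hβ0 h1 h2,
    fun _ _ _ hα hα0 hl hm h1 h2 => one_line hα hα0 hl hm h1 h2,
    fun _ α l hα hα0 hinj hl h c₀ c hc₀ hc hs => matched_indep α l hα hα0 hinj hl h c₀ c hc₀ hc hs,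
    fun A H hA hH m c hc hi hf => main_ineq A H hA hH m c hc hi hf,
    fun B H hB hH hf => set_ineq B H hB hH hf,
    fun _ hα hα0 N m P hP hc hd hf => poly_bound hα hα0 N m P hP hc hd hf,
    fun _ hα hα0 N S hS => count_bound hα hα0 N S hS⟩

end Pool.Agent.Results.MP_58e087_nt.ExponentialsAgainstLogarithms
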