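import Mathlib
import Pool.Agent.X142.LI.Lin

/-!
# Near relations between `1`, `e` and `π` are sparse

Let `v = (a, b, c)` be an integer vector without common divisor, `H` its height (the largest absolute
value of a coefficient), and suppose `c > 0`. If `1`, `e`, `π` are linearly independent, there are
infinitely many `v` with `|a + b e + c π| ≤ H^(-2)` (Dirichlet). We show that the `v` with
`|a + b e + c π| ≤ H^(-w)`, `w > 3`, are very rare: there are at most `log log X / log ρ + 1` of them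
with `H₀ ≤ H ≤ X`, for every `ρ < (w - 1) / 2`. For vectors with `c ≤ B H^θ` it is enough that
`w > 1 + 2 θ`, and `ρ < (w - θ) / (1 + θ)`; in particular `w > 1` if `c` is bounded. The number `H₀`
is independent of `π`: `π` can be replaced by any real number `t`.

More generally let `0 = k 0, ..., k m` be different integers `≥ 0`, and consider the linear forms
`a 0 + a 1 e^(k 1) + ... + a m e^(k m) + c t` with `0 < c ≤ B H^θ`. Here the condition is
`w > m + (m + 1) θ` and `ρ < (w - θ m) / (m + θ)`.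
-/

set_option autoImplicit false

namespace Pool.Agent.Results.MP_58e087_nt.LinearNearRelations

open Finset

variable {m : ℕ}

/-- The height of `v = (a, c)`: the largest absolute value of `a i` and `c`. -/
def height (v : (Fin (m + 1) → ℤ) × ℤ) : ℕ := max (univ.sup fun i => (v.1 i).natAbs) v.2.natAbs

/-- The coefficients `a i`, `c` have no common divisor. -/
def Primitive (v : (Fin (m + 1) → ℤ) × ℤ) : Prop :=
  ∀ d : ℤ, (∀ i, d ∣ v.1 i) → d ∣ v.2 → IsUnit d

/-- The linear form `∑ a i e^(k i) + c t`. -/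
noncomputable def form (k : Fin (m + 1) → ℤ) (t : ℝ) (v : (Fin (m + 1) → ℤ) × ℤ) : ℝ :=
  ∑ i, (v.1 i : ℝ) * Real.exp (k i) + v.2 * t

/-- The near relations `v = (a, c)` of exponent `w` with `0 < c ≤ B H^θ`, `H` the height of `v`. -/
def Near (k : Fin (m + 1) → ℤ) (t B θ w : ℝ) : Set ((Fin (m + 1) → ℤ) × ℤ) :=
  {v | Primitive v ∧ 0 < v.2 ∧ (v.2 : ℝ) ≤ B * (height v : ℝ) ^ θ ∧
    |form k t v| ≤ (height v : ℝ) ^ (-w)}

/-- The near relations between `1, e^(k 1), ..., e^(k m), t` are sparse. The triple `1, e, π` of the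
problem is the case `m = 1`, `k = ![0, 1]`, `t = π`. -/
theorem result (k : Fin (m + 1) → ℤ) (hinj : Function.Injective k) (hk0 : k 0 = 0)
    (hk : ∀ i, 0 ≤ k i) (B θ w ρ : ℝ) (hB : 1 ≤ B) (hθ0 : 0 ≤ θ) (hθ1 : θ ≤ 1)
    (hρ : 1 < ρ) (hw : ρ < (w - θ * m) / (m + θ)) :
    ∃ H₀ : ℝ, 3 ≤ H₀ ∧ ∀ t X : ℝ, 3 ≤ X →
      {v ∈ Near k t B θ w | H₀ ≤ (height v : ℝ) ∧ (height v : ℝ) ≤ X}.Finite ∧
      ({v ∈ Near k t B θ w | H₀ ≤ (height v : ℝ) ∧ (height v : ℝ) ≤ X}.ncard : ℝ) ≤
        Real.log (Real.log X) / Real.log ρ + 1 := by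
  have h1 : ρ * (m + θ) < w - θ * m := by
    rcases (show (0 : ℝ) ≤ m + θ by positivity).eq_or_lt with h | h
    · rw [← h, div_zero] at hw
      linarith
    · rwa [lt_div_iff₀ h] at hw
  exact Pool.Agent.X142.LI.sparse_lin k hinj hk0 hk B θ w ρ hB hθ0 hθ1 hρ h1

end Pool.Agent.Results.MP_58e087_nt.LinearNearRelations
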