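import Mathlib
import Pool.Agent.X142.LI.Total

/-!
# The number of near relations between `1`, `e` and `π` of exponent `w > 2`

If `1`, `e`, `π` are linearly independent, then `|a + b e + c π| ≤ H^(-2)` for infinitely many integer
vectors of height `H` (Dirichlet), and one expects only finitely many solutions of
`|a + b e + c π| ≤ H^(-w)` for `w > 2`. We show that for `2 < w ≤ 3` there are at most
`C X^((3 - w)/2 + η)` vectors `(a, b, c)` without common divisor, `c > 0`, of height at most `X` with
`|a + b e + c π| ≤ H^(-w)`; in particular at most `C X^(1/2 + η)` vectors have an exponent larger than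
`2`. The constant does not depend on the number `π`, which can be replaced by any real number `t`.

Proof: for `w > 2` the near relations with heights between `X` and `2 X` lie in a plane (their
determinants are integers smaller than `1`). Fix one of them, `v₁`. The vectors obtained from `v₁` and
the other ones by elimination of `π` are multiples `k g` of one vector `g` in `ℤ^2`; here
`|k| |g| ≤ 8 X^2` and `|k| |g 0 + g 1 e| ≤ 4 X^(1 - w)`, and `|g 0 + g 1 e| ≥ c |g|^(-1 - η)`. So
`k^2 ≤ C X^(3 - w + 2 η)`.
-/

set_option autoImplicit false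

namespace Pool.Agent.Results.MP_58e087_nt.NearRelationCount

/-- The height of `v = (a, b, c)`: the largest of `|a|`, `|b|`, `|c|`. -/
def height (v : ℤ × ℤ × ℤ) : ℕ := max v.1.natAbs (max v.2.1.natAbs v.2.2.natAbs)

/-- `a`, `b`, `c` have no common divisor. -/
def Primitive (v : ℤ × ℤ × ℤ) : Prop := ∀ d : ℤ, d ∣ v.1 → d ∣ v.2.1 → d ∣ v.2.2 → IsUnit d

/-- The number `a + b e + c t`. -/
noncomputable def form (t : ℝ) (v : ℤ × ℤ × ℤ) : ℝ := v.1 + v.2.1 * Real.exp 1 + v.2.2 * t

/-- The near relations of exponent `w`: primitive triples with `c > 0` and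
`|a + b e + c t| ≤ H^(-w)`, `H` the height. -/
def Near (t w : ℝ) : Set (ℤ × ℤ × ℤ) :=
  {v | Primitive v ∧ 0 < v.2.2 ∧ |form t v| ≤ (height v : ℝ) ^ (-w)}

/-- The number of near relations of exponent `w`, `2 < w ≤ 3`, and height at most `X` between `1`,
`e` and an arbitrary real number `t` (for instance `t = π`). -/
theorem result (w η : ℝ) (hw : 2 < w) (hw3 : w ≤ 3) (hη : 0 < η) :
    ∃ C : ℝ, 0 < C ∧ ∀ t X : ℝ, 1 ≤ X → {v ∈ Near t w | (height v : ℝ) ≤ X}.Finite ∧
      ({v ∈ Near t w | (height v : ℝ) ≤ X}.ncard : ℝ) ≤ C * X ^ ((3 - w) / 2 + η) :=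
  Pool.Agent.X142.LI.total w η hw hw3 hη

end Pool.Agent.Results.MP_58e087_nt.NearRelationCount
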