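import Pool.Agent.X262.ZO.Conv
import Pool.Agent.W472.AC.EMeas2

/-!
# Linear independence of `1, e, π`: a zero-one law for the uniform exponents

The measure of irrationality of `e` with the exponent two, together with the geometry of
consecutive best approximations (three consecutive ones span the space infinitely often unless
`1, e, π` are dependent), leaves a gap between the values of the uniform exponents of the pair
`(e, π)` which are possible in the independent case, and the trivial values in the dependent case.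
-/

set_option autoImplicit false

namespace Pool.Agent.Results.MP_58e087_nt.ZeroOneLaw

open Filter

/-- For every large real `Q` some integer `1 ≤ q ≤ Q` satisfies `|q e - p| ≤ Q ^ (-τ)` and
`|q π - r| ≤ Q ^ (-τ)` with integers `p`, `r`. -/
def UniformPoints (τ : ℝ) : Prop :=
  ∀ᶠ Q : ℝ in atTop, ∃ q p r : ℤ, 1 ≤ q ∧ (q : ℝ) ≤ Q ∧
    |(q : ℝ) * Real.exp 1 - p| ≤ Q ^ (-τ) ∧ |(q : ℝ) * Real.pi - r| ≤ Q ^ (-τ)

/-- For every large real `H` some integers `a, b, c`, not all zero, of absolute values at most `H`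
satisfy `|a + b e + c π| ≤ H ^ (-τ)`. -/
def UniformForms (τ : ℝ) : Prop :=
  ∀ᶠ H : ℝ in atTop, ∃ a b c : ℤ, (a ≠ 0 ∨ b ≠ 0 ∨ c ≠ 0) ∧ |(a : ℝ)| ≤ H ∧ |(b : ℝ)| ≤ H ∧
    |(c : ℝ)| ≤ H ∧ |(a : ℝ) + b * Real.exp 1 + c * Real.pi| ≤ H ^ (-τ)

/-- Only finitely many integer triples `(a, b, c)` satisfy
`0 < |a + b e + c π| ≤ max(|a|, |b|, |c|) ^ (-(1 + δ))`. -/
def FewNearRelations (δ : ℝ) : Prop :=
  {v : ℤ × ℤ × ℤ | (v.1 : ℝ) + v.2.1 * Real.exp 1 + v.2.2 * Real.pi ≠ 0 ∧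
    |(v.1 : ℝ) + v.2.1 * Real.exp 1 + v.2.2 * Real.pi| ≤
      ((max v.1.natAbs (max v.2.1.natAbs v.2.2.natAbs) : ℕ) : ℝ) ^ (-(1 + δ))}.Finite

/-- `e` has irrationality exponent two -/
theorem meas_e : Pool.Agent.X262.ZO.Meas1 (Real.exp 1) := by
  intro ε hε
  obtain ⟨c, hc, h⟩ := Pool.Agent.W472.AC.e_meas 1 ![0, 1] (by
    intro i j hij
    fin_cases i <;> fin_cases j <;> simp_all) (by simp) (by
    intro i
    fin_cases i <;> simp) ε hε
  refine ⟨c, hc, fun A B hAB H hH hA hB => ?_⟩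
  have h1 := h ![A, B] (by
    intro h0
    have e0 := congrFun h0 0
    have e1 := congrFun h0 1
    simp at e0 e1
    omega) H hH (by
    intro j
    fin_cases j
    · simpa using hA
    · simpa using hB)
  rw [Fin.sum_univ_two] at h1
  simpa using h1

theorem sqrt_five : 2 < √5 ∧ √5 < 3 ∧ √5 ^ 2 = 5 := by
  have h : √5 ^ 2 = 5 := Real.sq_sqrt (by norm_num)
  have h0 : 0 ≤ √5 := Real.sqrt_nonneg _
  refine ⟨?_, ?_, h⟩ <;> nlinarith

/-- **Zero-one law** for linear dependence of `1, e, π`. -/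
theorem result : List.TFAE [
    ¬ LinearIndependent ℚ ![(1 : ℝ), Real.exp 1, Real.pi],
    ∃ τ : ℝ, (√5 - 1) / 2 < τ ∧ UniformPoints τ,
    ∀ τ : ℝ, τ < 1 → UniformPoints τ,
    ∃ τ : ℝ, (3 + √5) / 2 < τ ∧ UniformForms τ,
    ∀ τ : ℝ, UniformForms τ,
    ∃ δ : ℝ, 0 < δ ∧ δ < 1 ∧ FewNearRelations δ,
    ∀ δ : ℝ, 0 < δ → FewNearRelations δ] := by
  obtain ⟨s1, s2, s3⟩ := sqrt_five
  tfae_have 1 → 3 := by
    intro h τ hτ
    exact Pool.Agent.X262.ZO.rel_sim meas_e ((Pool.Agent.X262.ZO.rel_iff _ _).1 h) τ hτ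
  tfae_have 3 → 2 := by
    intro h
    exact ⟨9 / 10 + (√5 - 2) / 5, by linarith, h _ (by nlinarith)⟩
  tfae_have 2 → 1 := by
    rintro ⟨τ, hτ, h⟩
    rw [Pool.Agent.X262.ZO.rel_iff]
    obtain ⟨σ, hσ1, hσ2, hσ3⟩ : ∃ σ : ℝ, (√5 - 1) / 2 < σ ∧ σ < 1 ∧ σ ≤ τ := by
      rcases lt_or_ge τ 1 with h1 | h1
      · exact ⟨τ, hτ, h1, le_refl _⟩
      · exact ⟨((√5 - 1) / 2 + 1) / 2, by linarith, by linarith, by linarith⟩
    have h2 : Pool.Agent.X262.ZO.UnifSim (Real.exp 1) Real.pi σ := by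
      unfold Pool.Agent.X262.ZO.UnifSim
      filter_upwards [h, eventually_ge_atTop 1] with Q hQ hQ1
      obtain ⟨q, p, r, h3, h4, h5, h6⟩ := hQ
      have h7 : Q ^ (-τ) ≤ Q ^ (-σ) := Real.rpow_le_rpow_of_exponent_le hQ1 (by linarith)
      exact ⟨q, p, r, h3, h4, h5.trans h7, h6.trans h7⟩
    exact Pool.Agent.X262.ZO.sim _ _ meas_e σ (by linarith) hσ2 (by nlinarith) h2
  tfae_have 1 → 5 := by
    intro h τ
    exact Pool.Agent.X262.ZO.rel_lin ((Pool.Agent.X262.ZO.rel_iff _ _).1 h) τ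
  tfae_have 5 → 4 := by
    intro h
    exact ⟨3, by linarith, h 3⟩
  tfae_have 4 → 1 := by
    rintro ⟨τ, hτ, h⟩
    rw [Pool.Agent.X262.ZO.rel_iff]
    exact Pool.Agent.X262.ZO.lin _ _ meas_e τ (by linarith) (by nlinarith) h
  tfae_have 1 → 7 := by
    intro h δ hδ
    exact Pool.Agent.X262.ZO.rel_fin meas_e ((Pool.Agent.X262.ZO.rel_iff _ _).1 h) δ hδ
  tfae_have 7 → 6 := by
    intro h
    exact ⟨1 / 2, by norm_num, by norm_num, h _ (by norm_num)⟩
  tfae_have 6 → 1 := by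
    rintro ⟨δ, h0, h1, h⟩
    rw [Pool.Agent.X262.ZO.rel_iff]
    exact Pool.Agent.X262.ZO.fin_rel _ _ δ h0 h1 h
  tfae_finish

end Pool.Agent.Results.MP_58e087_nt.ZeroOneLaw
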